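import Pool.Agent.F5S.Stmts

/-! Squad F5S (MP_f5cbfa_nt): row ABS. -/

set_option autoImplicit false

open MeasureTheory Filter Topology
open scoped ENNReal

namespace Pool.Agent.F5S.H90

/-- a continuous function with compact support is continuous in L1 under translations -/
lemma trans_cc (g : ℝ → ℝ) (hg : Continuous g) (hs : HasCompactSupport g) :
    Tendsto (fun h : ℝ => ∫⁻ s, ‖g (s + h) - g s‖ₑ) (𝓝 0) (𝓝 0) := by
  obtain ⟨C, hC⟩ := hs.exists_bound_of_continuous hg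
  obtain ⟨R, hR⟩ : ∃ R : ℝ, ∀ x, R < |x| → g x = 0 := by
    obtain ⟨R, hR⟩ := hs.isCompact.isBounded.subset_closedBall 0
    refine ⟨R, fun x hx => ?_⟩
    by_contra h0
    have : x ∈ Metric.closedBall (0 : ℝ) R := hR (subset_tsupport g h0)
    rw [Metric.mem_closedBall, dist_zero_right, Real.norm_eq_abs] at this
    linarith
  have hC0 : 0 ≤ C := le_trans (norm_nonneg _) (hC 0)
  have key := tendsto_lintegral_filter_of_dominated_convergence (μ := (volume : Measure ℝ))
    (l := 𝓝 (0 : ℝ)) (F := fun (h : ℝ) (s : ℝ) => ‖g (s + h) - g s‖ₑ) (f := fun _ => 0)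
    (bound := (Set.Icc (-(R + 1)) (R + 1)).indicator (fun _ => ENNReal.ofReal (2 * C)))
    ?_ ?_ ?_ ?_
  · simpa using key
  · refine Eventually.of_forall fun h => ?_
    have : Continuous (fun s => g (s + h) - g s) := by fun_prop
    exact this.enorm.measurable
  · have h1 : ∀ᶠ h in 𝓝 (0 : ℝ), |h| < 1 := by
      have := Metric.ball_mem_nhds (0 : ℝ) one_pos
      filter_upwards [this] with h hh
      rwa [Metric.mem_ball, dist_zero_right, Real.norm_eq_abs] at hh
    filter_upwards [h1] with h hh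
    refine Eventually.of_forall fun s => ?_
    by_cases hsI : s ∈ Set.Icc (-(R + 1)) (R + 1)
    · rw [Set.indicator_of_mem hsI]
      rw [← ofReal_norm]
      apply ENNReal.ofReal_le_ofReal
      calc ‖g (s + h) - g s‖ ≤ ‖g (s + h)‖ + ‖g s‖ := norm_sub_le _ _
        _ ≤ 2 * C := by linarith [hC (s + h), hC s]
    · rw [Set.indicator_of_notMem hsI]
      have hs1 : R + 1 < |s| := by
        by_contra hcon
        rw [not_lt, abs_le] at hcon
        exact hsI hcon
      have e1 : g s = 0 := hR s (by linarith)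
      have e2 : g (s + h) = 0 := by
        apply hR
        have h3 : |s| ≤ |s + h| + |h| := by
          calc |s| = |(s + h) - h| := by ring_nf
            _ ≤ |s + h| + |h| := abs_sub _ _
        linarith
      rw [e1, e2]
      simp
  · rw [lintegral_indicator measurableSet_Icc, lintegral_const]
    simp only [Measure.restrict_apply MeasurableSet.univ, Set.univ_inter, Real.volume_Icc]
    exact ENNReal.mul_ne_top ENNReal.ofReal_ne_top ENNReal.ofReal_ne_top
  · refine Eventually.of_forall fun s => ?_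
    have : Continuous (fun h : ℝ => ‖g (s + h) - g s‖ₑ) := by
      have h2 : Continuous (fun h : ℝ => g (s + h) - g s) := by fun_prop
      exact h2.enorm
    have h3 := this.tendsto 0
    simpa using h3

/-- continuity of translations in L1 -/
lemma trans_L1 (ρ : ℝ → ℝ) (hm : Measurable ρ) (hi : Integrable ρ) (η : ℝ≥0∞) (hη : η ≠ 0) :
    ∃ h0 : ℝ, 0 < h0 ∧ ∀ h : ℝ, |h| ≤ h0 → ∫⁻ s, ‖ρ (s + h) - ρ s‖ₑ ≤ η := by
  have h3 : η / 3 ≠ 0 := by
    simp [ENNReal.div_eq_zero_iff, hη]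
  obtain ⟨g, hgs, hgl, hgc, -⟩ := hi.exists_hasCompactSupport_lintegral_sub_le h3
  have ht := trans_cc g hgc hgs
  have hev : ∀ᶠ h in 𝓝 (0 : ℝ), ∫⁻ s, ‖g (s + h) - g s‖ₑ < η / 3 := by
    exact ht.eventually (gt_mem_nhds (pos_iff_ne_zero.mpr h3))
  obtain ⟨h0, hh0, hball⟩ := Metric.eventually_nhds_iff.mp hev
  refine ⟨h0 / 2, by positivity, fun h hh => ?_⟩
  have hlt : ∫⁻ s, ‖g (s + h) - g s‖ₑ < η / 3 := by
    apply hball
    rw [dist_zero_right, Real.norm_eq_abs]
    linarith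
  have hgm : Measurable g := hgc.measurable
  calc ∫⁻ s, ‖ρ (s + h) - ρ s‖ₑ
      ≤ ∫⁻ s, ((‖ρ (s + h) - g (s + h)‖ₑ + ‖g (s + h) - g s‖ₑ) + ‖ρ s - g s‖ₑ) := by
        refine lintegral_mono fun s => ?_
        have e : ρ (s + h) - ρ s = ((ρ (s + h) - g (s + h)) + (g (s + h) - g s)) - (ρ s - g s) := by
          ring
        rw [e]
        refine (enorm_sub_le).trans ?_
        exact add_le_add_left (enorm_add_le _ _) _
    _ = ((∫⁻ s, ‖ρ (s + h) - g (s + h)‖ₑ) + ∫⁻ s, ‖g (s + h) - g s‖ₑ) + ∫⁻ s, ‖ρ s - g s‖ₑ := by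
        rw [lintegral_add_left, lintegral_add_left]
        · fun_prop
        · fun_prop
    _ ≤ (η / 3 + η / 3) + η / 3 := by
        refine add_le_add (add_le_add ?_ hlt.le) hgl
        have := lintegral_add_right_eq_self (μ := (volume : Measure ℝ))
          (fun s => ‖ρ s - g s‖ₑ) h
        rw [this]
        exact hgl
    _ = η := ENNReal.add_thirds η

/-- the smoothed density -/
noncomputable def GG (ρ : ℝ → ℝ) (e q δ s : ℝ) : ℝ := ∫ u, tn (u / e) * ρ (s + (q + u) * δ)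

lemma tn_meas : Measurable tn := by
  unfold tn
  fun_prop

lemma GG_meas (ρ : ℝ → ℝ) (hm : Measurable ρ) (e q δ : ℝ) : Measurable (GG ρ e q δ) := by
  have h1 : StronglyMeasurable (fun z : ℝ × ℝ => tn (z.2 / e) * ρ (z.1 + (q + z.2) * δ)) := by
    apply Measurable.stronglyMeasurable
    have := tn_meas
    fun_prop
  exact (h1.integral_prod_right' (ν := volume)).measurable

lemma int_u (ρ : ℝ → ℝ) (hm : Measurable ρ) (h0 : ∀ s, 0 ≤ ρ s) (B : ℝ) (hB : ∀ s, ρ s ≤ B)
    (h : TNFStmt) (e q δ s : ℝ) (he : 0 < e) :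
    Integrable (fun u => tn (u / e) * ρ (s + (q + u) * δ)) := by
  obtain ⟨h1, -, -, -, -, -, h2, -⟩ := h
  refine ((h2 e he).1.mul_const B).mono' ?_ (Eventually.of_forall fun u => ?_)
  · have := tn_meas
    apply Measurable.aestronglyMeasurable
    fun_prop
  · rw [Real.norm_of_nonneg (mul_nonneg (h1 _).1 (h0 _))]
    exact mul_le_mul_of_nonneg_left (hB _) (h1 _).1

lemma GG_bd (ρ : ℝ → ℝ) (hm : Measurable ρ) (h0 : ∀ s, 0 ≤ ρ s) (B : ℝ) (hB : ∀ s, ρ s ≤ B)
    (h : TNFStmt) (e q δ s : ℝ) (he : 0 < e) : 0 ≤ GG ρ e q δ s ∧ GG ρ e q δ s ≤ e * B := by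
  have hi := int_u ρ hm h0 B hB h e q δ s he
  obtain ⟨h1, -, -, -, -, -, h2, -⟩ := h
  constructor
  · exact integral_nonneg fun u => mul_nonneg (h1 _).1 (h0 _)
  · calc GG ρ e q δ s ≤ ∫ u, tn (u / e) * B := by
          refine integral_mono hi ((h2 e he).1.mul_const B) fun u => ?_
          exact mul_le_mul_of_nonneg_left (hB _) (h1 _).1
      _ = e * B := by rw [integral_mul_const, (h2 e he).2]

lemma GG_L1 (ρ : ℝ → ℝ) (hm : Measurable ρ) (h0 : ∀ s, 0 ≤ ρ s) (B : ℝ) (hB : ∀ s, ρ s ≤ B)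
    (hi : Integrable ρ) (h : TNFStmt) (e q : ℝ) (he : 0 < e) :
    Tendsto (fun δ : ℝ => ∫⁻ s, ‖GG ρ e q δ s - e * ρ s‖ₑ) (𝓝[>] 0) (𝓝 0) := by
  have hint := int_u ρ hm h0 B hB h e q
  obtain ⟨h1, -, -, hsup, -, -, h2, -⟩ := h
  rw [ENNReal.tendsto_nhds_zero]
  intro ε hε
  -- choose eta
  have hoe : ENNReal.ofReal e ≠ 0 := by
    rw [Ne, ENNReal.ofReal_eq_zero, not_le]; exact he
  have hη : ε / ENNReal.ofReal e ≠ 0 := by
    rw [Ne, ENNReal.div_eq_zero_iff]
    push Not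
    exact ⟨hε.ne', ENNReal.ofReal_ne_top⟩
  obtain ⟨k0, hk0, hk⟩ := trans_L1 ρ hm hi _ hη
  have hev : ∀ᶠ δ in 𝓝[>] (0 : ℝ), 0 < δ ∧ δ < k0 / (|q| + e + 1) := by
    have hpos : 0 < k0 / (|q| + e + 1) := by positivity
    exact (eventually_mem_nhdsWithin.and (nhdsWithin_le_nhds (gt_mem_nhds hpos)))
  filter_upwards [hev] with δ hδ
  have hqe : 0 < |q| + e + 1 := by positivity
  have hδ2 : δ * (|q| + e + 1) < k0 := by
    rw [← lt_div_iff₀ hqe]; exact hδ.2
  calc ∫⁻ s, ‖GG ρ e q δ s - e * ρ s‖ₑ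
      ≤ ∫⁻ s, ∫⁻ u, ‖tn (u / e)‖ₑ * ‖ρ (s + (q + u) * δ) - ρ s‖ₑ := by
        refine lintegral_mono fun s => ?_
        have e1 : GG ρ e q δ s - e * ρ s = ∫ u, tn (u / e) * (ρ (s + (q + u) * δ) - ρ s) := by
          have e2 : e * ρ s = ∫ u, tn (u / e) * ρ s := by
            rw [integral_mul_const, (h2 e he).2]
          rw [e2, GG, ← integral_sub (hint δ s he) ((h2 e he).1.mul_const _)]
          refine integral_congr_ae (Eventually.of_forall fun u => ?_)
          ring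
        rw [e1]
        refine (enorm_integral_le_lintegral_enorm _).trans (le_of_eq ?_)
        refine lintegral_congr fun u => ?_
        rw [enorm_mul]
    _ = ∫⁻ u, ∫⁻ s, ‖tn (u / e)‖ₑ * ‖ρ (s + (q + u) * δ) - ρ s‖ₑ := by
        refine lintegral_lintegral_swap ?_
        apply Measurable.aemeasurable
        have := tn_meas
        have hh : Measurable (fun z : ℝ × ℝ => ‖tn (z.2 / e)‖ₑ * ‖ρ (z.1 + (q + z.2) * δ) - ρ z.1‖ₑ) := by
          fun_prop
        exact hh
    _ ≤ ∫⁻ u, ‖tn (u / e)‖ₑ * (ε / ENNReal.ofReal e) := by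
        refine lintegral_mono fun u => ?_
        rw [lintegral_const_mul _ (by fun_prop)]
        by_cases hu : |u| < e
        · gcongr
          apply hk
          calc |(q + u) * δ| = |q + u| * δ := by rw [abs_mul, abs_of_pos hδ.1]
            _ ≤ (|q| + e + 1) * δ := by
                refine mul_le_mul_of_nonneg_right ?_ hδ.1.le
                have := abs_add_le q u
                linarith
            _ ≤ k0 := by linarith [hδ2]
        · have : tn (u / e) = 0 := by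
            apply hsup
            rw [abs_div, abs_of_pos he, le_div_iff₀ he]
            linarith [not_lt.mp hu]
          rw [this]
          simp
    _ = (∫⁻ u, ‖tn (u / e)‖ₑ) * (ε / ENNReal.ofReal e) := by
        rw [lintegral_mul_const]
        have := tn_meas
        fun_prop
    _ = ENNReal.ofReal e * (ε / ENNReal.ofReal e) := by
        have e3 : ∫⁻ u, ‖tn (u / e)‖ₑ = ENNReal.ofReal (∫ u, tn (u / e)) := by
          rw [ofReal_integral_eq_lintegral_ofReal (h2 e he).1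
            (Eventually.of_forall fun u => (h1 _).1)]
          refine lintegral_congr fun u => ?_
          rw [Real.enorm_eq_ofReal (h1 _).1]
        rw [e3, (h2 e he).2]
    _ ≤ ε := ENNReal.mul_div_le

lemma prod_est (a b c r D : ℝ) (ha : 0 ≤ a ∧ a ≤ D) (hb : 0 ≤ b ∧ b ≤ D) (hc : 0 ≤ c ∧ c ≤ D)
    (hr : 0 ≤ r ∧ r ≤ D) :
    |a * (b * c) - r ^ 3| ≤ D ^ 2 * (|a - r| + |b - r| + |c - r|) := by
  have e : a * (b * c) - r ^ 3 = (a - r) * (b * c) + (b - r) * (r * c) + (c - r) * (r * r) := by ring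
  have hD : 0 ≤ D := ha.1.trans ha.2
  have p1 : |(a - r) * (b * c)| ≤ |a - r| * D ^ 2 := by
    rw [abs_mul, abs_of_nonneg (mul_nonneg hb.1 hc.1)]
    refine mul_le_mul_of_nonneg_left ?_ (abs_nonneg _)
    rw [sq]; exact mul_le_mul hb.2 hc.2 hc.1 hD
  have p2 : |(b - r) * (r * c)| ≤ |b - r| * D ^ 2 := by
    rw [abs_mul, abs_of_nonneg (mul_nonneg hr.1 hc.1)]
    refine mul_le_mul_of_nonneg_left ?_ (abs_nonneg _)
    rw [sq]; exact mul_le_mul hr.2 hc.2 hc.1 hD
  have p3 : |(c - r) * (r * r)| ≤ |c - r| * D ^ 2 := by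
    rw [abs_mul, abs_of_nonneg (mul_nonneg hr.1 hr.1)]
    refine mul_le_mul_of_nonneg_left ?_ (abs_nonneg _)
    rw [sq]; exact mul_le_mul hr.2 hr.2 hr.1 hD
  rw [e]
  calc |(a - r) * (b * c) + (b - r) * (r * c) + (c - r) * (r * r)|
      ≤ |(a - r) * (b * c)| + |(b - r) * (r * c)| + |(c - r) * (r * r)| := abs_add_three _ _ _
    _ ≤ _ := by linarith

/-- Row ABS. -/
theorem abs (h : TNFStmt) : ABSStmt := by
  intro ρ hm h0 B hB hi e q1 q2 q3 he
  have L1 := GG_L1 ρ hm h0 B hB hi h e q1 he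
  have L2 := GG_L1 ρ hm h0 B hB hi h e q2 he
  have L3 := GG_L1 ρ hm h0 B hB hi h e q3 he
  have b1 := fun δ s => GG_bd ρ hm h0 B hB h e q1 δ s he
  have b2 := fun δ s => GG_bd ρ hm h0 B hB h e q2 δ s he
  have b3 := fun δ s => GG_bd ρ hm h0 B hB h e q3 δ s he
  have hB0 : 0 ≤ B := (h0 0).trans (hB 0)
  have br : ∀ s, 0 ≤ e * ρ s ∧ e * ρ s ≤ e * B := fun s =>
    ⟨mul_nonneg he.le (h0 s), mul_le_mul_of_nonneg_left (hB s) he.le⟩
  have m1 := GG_meas ρ hm e q1
  have m2 := GG_meas ρ hm e q2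
  have m3 := GG_meas ρ hm e q3
  have e1 : ∫ s, (e * ρ s) ^ 3 = e ^ 3 * ∫ s, ρ s ^ 3 := by
    rw [← integral_const_mul]
    refine integral_congr_ae (Eventually.of_forall fun s => ?_)
    simp only
    ring
  rw [← e1]
  refine tendsto_integral_of_L1 (μ := (volume : Measure ℝ)) (fun s : ℝ => (e * ρ s) ^ 3) ?_
    (F := fun δ s => GG ρ e q1 δ s * (GG ρ e q2 δ s * GG ρ e q3 δ s)) ?_ ?_
  · apply Measurable.aestronglyMeasurable
    fun_prop
  · -- integrable F
    have hev : ∀ᶠ δ in 𝓝[>] (0 : ℝ), ∫⁻ s, ‖GG ρ e q3 δ s - e * ρ s‖ₑ < 1 :=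
      L3.eventually (gt_mem_nhds one_pos)
    filter_upwards [hev] with δ hδ
    have i1 : Integrable (fun s => GG ρ e q3 δ s - e * ρ s) := by
      refine ⟨?_, ?_⟩
      · apply Measurable.aestronglyMeasurable
        exact (m3 δ).sub (hm.const_mul e)
      · exact hδ.trans ENNReal.one_lt_top
    have i2 : Integrable (fun s => GG ρ e q3 δ s) := by
      have := i1.add (hi.const_mul e)
      refine this.congr (Eventually.of_forall fun s => ?_)
      simp
    refine (i2.const_mul ((e * B) ^ 2)).mono' ?_ (Eventually.of_forall fun s => ?_)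
    · apply Measurable.aestronglyMeasurable
      exact (m1 δ).mul ((m2 δ).mul (m3 δ))
    · rw [Real.norm_of_nonneg (mul_nonneg (b1 δ s).1 (mul_nonneg (b2 δ s).1 (b3 δ s).1))]
      rw [← mul_assoc, sq]
      refine mul_le_mul_of_nonneg_right ?_ (b3 δ s).1
      exact mul_le_mul (b1 δ s).2 (b2 δ s).2 (b2 δ s).1 (by positivity)
  · -- convergence in L1
    have hsum : Tendsto (fun δ : ℝ => ENNReal.ofReal ((e * B) ^ 2) *
        (((∫⁻ s, ‖GG ρ e q1 δ s - e * ρ s‖ₑ) + ∫⁻ s, ‖GG ρ e q2 δ s - e * ρ s‖ₑ)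
          + ∫⁻ s, ‖GG ρ e q3 δ s - e * ρ s‖ₑ)) (𝓝[>] 0) (𝓝 0) := by
      have := ENNReal.Tendsto.const_mul (a := ENNReal.ofReal ((e * B) ^ 2)) ((L1.add L2).add L3)
        (Or.inr ENNReal.ofReal_ne_top)
      simpa using this
    refine tendsto_of_tendsto_of_tendsto_of_le_of_le tendsto_const_nhds hsum
      (fun δ => bot_le) (fun δ => ?_)
    simp only
    rw [← lintegral_add_left, ← lintegral_add_left, ← lintegral_const_mul]
    · refine lintegral_mono fun s => ?_
      have hp := prod_est _ _ _ _ _ (b1 δ s) (b2 δ s) (b3 δ s) (br s)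
      rw [← Real.enorm_abs, Real.enorm_eq_ofReal (abs_nonneg _)]
      refine (ENNReal.ofReal_le_ofReal hp).trans (le_of_eq ?_)
      rw [ENNReal.ofReal_mul (by positivity), ENNReal.ofReal_add (by positivity) (abs_nonneg _),
        ENNReal.ofReal_add (abs_nonneg _) (abs_nonneg _)]
      simp only [← Real.enorm_eq_ofReal (abs_nonneg _), Real.enorm_abs]
    · exact ((((m1 δ).sub (hm.const_mul e)).enorm).add (((m2 δ).sub (hm.const_mul e)).enorm)).add
        (((m3 δ).sub (hm.const_mul e)).enorm)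
    · exact (((m1 δ).sub (hm.const_mul e)).enorm).add (((m2 δ).sub (hm.const_mul e)).enorm)
    · exact ((m1 δ).sub (hm.const_mul e)).enorm

end Pool.Agent.F5S.H90
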